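import Pool.Agent.Helper85.RL.Stmts2
import Pool.Agent.Helper83.HR.ACKB

/-! Row ACKG: the iteration stays in the Ackermann hierarchy. -/

set_option autoImplicit false

namespace Pool.Helper41.RL

open Pool.Helper16.HR Pool.Helper85.RL

theorem gg_le (hE : ST_EXP) (q : ℕ) (hq : 1 ≤ q) (X : ℕ) (hX : 4096 * q ^ 4 ≤ X) :
    GG q X ≤ 2 ^ (2 ^ X) := by
  have hq4 : q ≤ q ^ 4 := Nat.le_self_pow (by norm_num) q
  have h1 : X + 4 * q * X ^ (5 * q) ≤ 2 ^ X := by
    refine le_trans ?_ (hE q X hX)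
    refine le_trans ?_ (Nat.pow_le_pow_right (by omega) (show 5 * q + 1 + 1 ≤ 24 * q ^ 2 from ?_))
    · have h2 : X ≤ X ^ (5 * q + 1) := Nat.le_self_pow (by omega) X
      have h3 : 4 * q * X ^ (5 * q) ≤ X ^ (5 * q + 1) := by
        rw [pow_succ, mul_comm (X ^ (5 * q)) X]
        exact Nat.mul_le_mul_right _ (by omega)
      have h4 : X ^ (5 * q + 1) * 2 ≤ X ^ (5 * q + 1 + 1) := by
        rw [pow_succ X (5 * q + 1)]
        exact Nat.mul_le_mul_left _ (by omega)
      omega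
    · nlinarith
  unfold GG
  calc X * 2 ^ (4 * q * X ^ (5 * q)) ≤ 2 ^ X * 2 ^ (4 * q * X ^ (5 * q)) :=
        Nat.mul_le_mul_right _ Nat.lt_two_pow_self.le
    _ = 2 ^ (X + 4 * q * X ^ (5 * q)) := by rw [pow_add]
    _ ≤ 2 ^ (2 ^ X) := Nat.pow_le_pow_right (by norm_num) h1

theorem ACKG (hE : ST_EXP) (hF : ST_MONF) (hA : ST_ACKB) : ST_ACKG := by
  intro q hq j M i n hM hMi
  have hq4 : q ≤ q ^ 4 := Nat.le_self_pow (by norm_num) q
  have hphi : ∀ K, 4096 * q ^ 4 ≤ K → GG q (Fq q j K) ≤ Ack j (Ack j K) := by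
    intro K hK
    have hKX : K ≤ Fq q j K := (hF q j).1 K
    have h1 := gg_le hE q hq (Fq q j K) (hK.trans hKX)
    refine h1.trans ?_
    cases j with
    | zero => exact le_of_eq (by rw [Fq, Ack, Ack])
    | succ i =>
      have h2 : 2 ^ (2 ^ Fq q (i + 1) K) ≤ Ack (i + 1) (K ^ (2 * Gq q + 6) + 2) := by
        refine le_trans ?_ (ackb_succ i _)
        refine Nat.pow_le_pow_right (by norm_num) ?_
        refine le_trans ?_ (ackb_succ i _)
        exact Nat.pow_le_pow_right (by norm_num) (hA q hq (i + 1) K hK)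
      refine h2.trans (ackb_mono (i + 1) ?_)
      refine le_trans ?_ (ackb_pow (i + 1) K)
      refine le_trans ?_ (hE q K hK)
      refine le_trans ?_ (Nat.pow_le_pow_right (by omega)
        (show 2 * Gq q + 6 + 1 ≤ 24 * q ^ 2 from ?_))
      · rw [pow_succ K (2 * Gq q + 6)]
        have h3 : 1 ≤ K ^ (2 * Gq q + 6) := Nat.one_le_pow _ _ (by omega)
        have h4 : K ^ (2 * Gq q + 6) * 3 ≤ K ^ (2 * Gq q + 6) * K :=
          Nat.mul_le_mul_left _ (by omega)
        omega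
      · unfold Gq
        nlinarith
  have hge : ∀ K, K ≤ GG q (Fq q j K) := by
    intro K
    unfold GG
    exact ((hF q j).1 K).trans (Nat.le_mul_of_pos_right _ (by positivity))
  induction n with
  | zero => exact ⟨le_refl _, hMi⟩
  | succ n ihn =>
    obtain ⟨ih1, ih2⟩ := ihn
    rw [Function.iterate_succ_apply']
    refine ⟨ih1.trans (hge _), ?_⟩
    refine (hphi _ (hM.trans ih1)).trans ?_
    rw [show i + 2 * (n + 1) = i + 2 * n + 1 + 1 by ring, Ack, Ack]
    exact ackb_mono j (ackb_mono j ih2)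

end Pool.Helper41.RL
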