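import Pool.Agent.Helper85.RL.Stmts
import Pool.Agent.Helper84.HR.CNT

/-! Row MARC: marginals with the thresholds of the regularity lemma. -/

set_option autoImplicit false

namespace Pool.Helper41.RL

open Finset Pool.Helper16.HR Pool.Helper85.RL

theorem one_congr {α : Type} {P Q : α → Prop} {x y : α} (h : P x ↔ Q y) : one P x = one Q y := by
  unfold one
  by_cases h1 : P x
  · rw [if_pos h1, if_pos (h.1 h1)]
  · rw [if_neg h1, if_neg (fun h2 => h1 (h.2 h2))]

theorem MARC (h : ST_MARG) (_hC : ST_CNT) (hCB : ST_CB) : ST_MARC := by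
  classical
  intro I V _ _ _ _ L rk hL c hc Ms x0 D hanti h2 hD hdel hsum hdisc N hN hNM e he hce P hP hPc hPA
  have hdelpos : ∀ r, 0 < del (Ms r) := by
    intro r
    have := h2 r
    unfold del
    positivity
  have hdel1 : ∀ r, del (Ms r) ≤ 1 := by
    intro r
    have h3 : (1 : ℝ) ≤ (Ms r : ℝ) := by
      have := h2 r
      exact_mod_cast (by omega : 1 ≤ Ms r)
    unfold del
    rw [div_le_one (by positivity)]
    exact one_le_pow₀ h3
  have hempty : ce L c ∅ (ind c ∅ (c ∅ x0)) x0 = 1 := by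
    have h3 : ∀ y ∈ cls L c ∅ x0, ind c ∅ (c ∅ x0) y = 1 := by
      intro y _
      unfold ind
      rw [if_pos]
      exact hc ∅ hL.empty y x0 (by simp)
    unfold ce
    rw [sum_congr rfl h3, sum_const, nsmul_eq_mul, mul_one,
      div_self (ne_of_gt (cls_card_pos x0))]
  have hN0 : (0 : ℝ) < N := by
    have : 0 < N := by omega
    exact_mod_cast this
  have hN2 : (2 : ℝ) ≤ N := by exact_mod_cast hN
  obtain ⟨κ, hκ⟩ : ∃ κ : ℝ, κ = 1 / (8 * N) := ⟨_, rfl⟩
  have hκ0 : 0 < κ := by rw [hκ]; positivity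
  have hκN : κ * (8 * N) = 1 := by
    rw [hκ]
    field_simp
  have hκ1 : κ ≤ 1 / 2 := by nlinarith
  have key := h I V L rk hL c hc x0 D (fun T => ce L c T (ind c T (c T x0)) x0)
    (fun r => del (Ms r)) (fun r => gam L.card (Ms r)) (eta L.card (Ms 0)) κ hD
    (fun T hT => ⟨hdel T hT, ce_le_one (ind_le_one _) x0⟩) hempty
    (fun r => ⟨hdelpos r, hdel1 r, by unfold gam; positivity⟩)
    (fun r s hrs => by
      have := cnt_mono 3 (Ms s) (Ms r) (h2 s) (hanti r s hrs)
      simpa [del] using this)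
    (fun r s hrs => by
      rw [cnt_one _ _ (h2 r), cnt_one _ _ (h2 s)]
      exact cnt_mono _ (Ms s) (Ms r) (h2 s) (hanti r s hrs))
    (by unfold eta; positivity)
    (fun T hT => hCB I V L c T x0 (fun x => D T x - ce L c T (ind c T (c T x0)) x0)
      (gam L.card (Ms (rk T))) (by unfold gam; positivity) (hsum T hT))
    hdisc hκ1
    (fun s => by
      rw [cnt_one _ _ (h2 s), cnt_two _ _ (h2 0)]
      have hm : ∀ r, 1 / (Ms r : ℝ) ^ (L.card + 4) ≤ 1 / (2 ^ (L.card + 3) * (8 * N)) := by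
        intro r
        have h3 : (2 : ℝ) ≤ Ms r := by exact_mod_cast h2 r
        have h4 : (8 * N : ℝ) ≤ Ms r := by exact_mod_cast hNM r
        apply one_div_le_one_div_of_le (by positivity)
        rw [show L.card + 4 = L.card + 3 + 1 by ring, pow_succ (Ms r : ℝ)]
        exact mul_le_mul (pow_le_pow_left₀ (by norm_num) h3 _) h4 (by positivity)
          (by positivity)
      have h5 : (2 : ℝ) ^ (L.card + 1) * (1 / (2 ^ (L.card + 3) * (8 * N)) +
          1 / (2 ^ (L.card + 3) * (8 * N))) = κ / 2 := by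
        rw [hκ, show L.card + 3 = L.card + 1 + 2 by ring, pow_add _ (L.card + 1) 2]
        field_simp
        ring
      have h6 := mul_le_mul_of_nonneg_left (add_le_add (hm s) (hm 0))
        (show (0 : ℝ) ≤ 2 ^ (L.card + 1) by positivity)
      rw [h5] at h6
      linarith)
  -- the numbers
  obtain ⟨Q0, hQ0⟩ : ∃ Q0 : ℝ, Q0 = ∏ T ∈ L, ce L c T (ind c T (c T x0)) x0 := ⟨_, rfl⟩
  have hQ00 : 0 ≤ Q0 := by
    rw [hQ0]
    exact prod_nonneg fun T _ => ce_nonneg (fun x => by unfold ind; split_ifs <;> norm_num) x0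
  obtain ⟨Q1, hQ1⟩ : ∃ Q1 : ℝ, Q1 = ∏ T ∈ L.filter (fun T => ¬ T ⊆ e),
      ce L c T (ind c T (c T x0)) x0 := ⟨_, rfl⟩
  have hQ10 : 0 ≤ Q1 := by
    rw [hQ1]
    exact prod_nonneg fun T _ => ce_nonneg (fun x => by unfold ind; split_ifs <;> norm_num) x0
  rw [← hQ0] at key
  -- products of indicators
  have hprod : ∀ (S : Finset (Finset I)) (x : I → V), ∏ T ∈ S, ind c T (c T x0) x =
      one (fun x => ∀ T ∈ S, c T x = c T x0) x := by
    intro S x
    unfold one
    by_cases hx : ∀ T ∈ S, c T x = c T x0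
    · rw [if_pos hx]
      refine prod_eq_one fun T hT => ?_
      unfold ind
      rw [if_pos (hx T hT)]
    · rw [if_neg hx]
      push Not at hx
      obtain ⟨T, hT, hne⟩ := hx
      refine prod_eq_zero hT ?_
      unfold ind
      rw [if_neg hne]
  have hfil : ∀ x : I → V, (∀ T ∈ L.filter (fun T => T ⊆ e), c T x = c T x0) ↔
      ∀ U ∈ below L e, c U x = c U x0 := by
    intro x
    constructor
    · intro hx U hU
      rw [mem_below] at hU
      exact hx U (mem_filter.2 ⟨hU.1, hU.2.1⟩)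
    · intro hx T hT
      rw [mem_filter] at hT
      by_cases hTe : T = e
      · subst hTe
        exact hce x x0
      · exact hx T (mem_below.2 ⟨hT.1, (Finset.ssubset_iff_subset_ne).2 ⟨hT.2, hTe⟩⟩)
  -- the value for the empty set
  have k0 : |av (one (fun x => ∀ T ∈ L, c T x = c T x0)) - Q0| ≤ κ * Q0 := by
    have h3 := key ∅ hL.empty (fun _ => 1) (fun _ _ _ => rfl) (fun _ => ⟨zero_le_one, le_rfl⟩)
    have e1 : av (fun x : I → V => 1 * ∏ T ∈ L, ind c T (c T x0) x) =
        av (one (fun x => ∀ T ∈ L, c T x = c T x0)) := by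
      refine av_congr fun x => ?_
      rw [one_mul, hprod]
    have e2 : av (fun x : I → V => 1 * ∏ T ∈ L.filter (fun T => T ⊆ ∅), ind c T (c T x0) x) = 1 := by
      refine (av_congr (g := fun _ => 1) fun x => ?_).trans (av_const 1)
      rw [one_mul]
      refine prod_eq_one fun T hT => ?_
      rw [mem_filter] at hT
      have hT0 : T = ∅ := subset_empty.1 hT.2
      subst hT0
      unfold ind
      rw [if_pos]
      exact hc ∅ hL.empty x x0 (by simp)
    have e3 : ∏ T ∈ L.filter (fun T => ¬ T ⊆ ∅), ce L c T (ind c T (c T x0)) x0 = Q0 := by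
      rw [hQ0, ← prod_filter_mul_prod_filter_not L (fun T => T ⊆ ∅)]
      have e4 : ∏ T ∈ L.filter (fun T => T ⊆ ∅), ce L c T (ind c T (c T x0)) x0 = 1 := by
        refine prod_eq_one fun T hT => ?_
        rw [mem_filter] at hT
        have hT0 : T = ∅ := subset_empty.1 hT.2
        subst hT0
        exact hempty
      rw [e4, one_mul]
    rw [e1, e2, e3, mul_one] at h3
    exact h3
  -- the value for the function one
  have k1 : |av (one (fun x => ∀ T ∈ L, c T x = c T x0)) -
      Q1 * av (one (fun x => ∀ U ∈ below L e, c U x = c U x0))| ≤ κ * Q0 := by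
    have h3 := key e he (fun _ => 1) (fun _ _ _ => rfl) (fun _ => ⟨zero_le_one, le_rfl⟩)
    have e1 : av (fun x : I → V => 1 * ∏ T ∈ L, ind c T (c T x0) x) =
        av (one (fun x => ∀ T ∈ L, c T x = c T x0)) := by
      refine av_congr fun x => ?_
      rw [one_mul, hprod]
    have e2 : av (fun x : I → V => 1 * ∏ T ∈ L.filter (fun T => T ⊆ e), ind c T (c T x0) x) =
        av (one (fun x => ∀ U ∈ below L e, c U x = c U x0)) := by
      refine av_congr fun x => ?_
      rw [one_mul, hprod]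
      exact one_congr (hfil x)
    rw [e1, e2, ← hQ1] at h3
    exact h3
  -- the value for the indicator of `P`
  have k2 : |av (one (fun x => P x ∧ ∀ T ∈ L, c T x = c T x0)) - Q1 * av (one P)| ≤ κ * Q0 := by
    have h3 := key e he (one P) (fun x y hxy => one_congr (by rw [hP x y hxy])) (fun x => by
      unfold one
      split_ifs <;> norm_num)
    have e1 : av (fun x : I → V => one P x * ∏ T ∈ L, ind c T (c T x0) x) =
        av (one (fun x => P x ∧ ∀ T ∈ L, c T x = c T x0)) := by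
      refine av_congr fun x => ?_
      rw [hprod]
      unfold one
      by_cases h4 : P x
      · by_cases h5 : ∀ T ∈ L, c T x = c T x0
        · rw [if_pos h4, if_pos h5, if_pos ⟨h4, h5⟩, mul_one]
        · rw [if_neg h5, if_neg (show ¬ (P x ∧ ∀ T ∈ L, c T x = c T x0) from fun h6 => h5 h6.2),
            mul_zero]
      · rw [if_neg h4, if_neg (show ¬ (P x ∧ ∀ T ∈ L, c T x = c T x0) from fun h6 => h4 h6.1),
          zero_mul]
    have e2 : av (fun x : I → V => one P x * ∏ T ∈ L.filter (fun T => T ⊆ e),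
        ind c T (c T x0) x) = av (one P) := by
      refine av_congr fun x => ?_
      rw [hprod]
      unfold one
      simp only [hfil]
      by_cases h4 : P x
      · rw [if_pos h4, if_pos (hPc x h4), mul_one]
      · rw [if_neg h4, zero_mul]
    rw [e1, e2, ← hQ1] at h3
    exact h3
  obtain ⟨a, ha⟩ : ∃ a : ℝ, a = av (one (fun x => ∀ U ∈ below L e, c U x = c U x0)) := ⟨_, rfl⟩
  obtain ⟨b, hb⟩ : ∃ b : ℝ, b = av (one P) := ⟨_, rfl⟩
  obtain ⟨F, hF⟩ : ∃ F : ℝ, F = av (one (fun x => ∀ T ∈ L, c T x = c T x0)) := ⟨_, rfl⟩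
  obtain ⟨G, hG⟩ : ∃ G : ℝ, G = av (one (fun x => P x ∧ ∀ T ∈ L, c T x = c T x0)) := ⟨_, rfl⟩
  rw [← hF] at k0
  rw [← hF, ← ha] at k1
  rw [← hG, ← hb] at k2
  rw [← ha, ← hb] at hPA
  rw [← hF, ← hG]
  rw [abs_le] at k0 k1 k2
  have g1 : Q1 * (b * (2 * N)) ≤ Q1 * a := mul_le_mul_of_nonneg_left hPA hQ10
  have g2 : G * N ≤ (Q1 * b + κ * Q0) * N := mul_le_mul_of_nonneg_right (by linarith [k2.2]) hN0.le
  have g3 : κ * Q0 * N = Q0 / 8 := by
    have : κ * Q0 * N = κ * (8 * N) * Q0 / 8 := by ring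
    rw [this, hκN, one_mul]
  have g4 : κ * Q0 ≤ Q0 / 16 := by
    have : κ * Q0 * 2 ≤ κ * Q0 * N := mul_le_mul_of_nonneg_left hN2 (by positivity)
    linarith
  nlinarith [k0.1, k1.1, k1.2]

end Pool.Helper41.RL
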